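import Pool.Agent.Helper63.Sey3.Goals

/-!
# MP_b6b2d3_co, packet SEY3-LOC2: locality inside a part
-/

namespace Pool.Agent.Helper85.Sey3

open Pool.Agent.Helper63.Sey3

open Classical in
/-- A vertex and its own neighbours. -/
noncomputable def St {V : Type} [Fintype V] (P : Sy V) (v : V) : Finset V :=
  insert v (Finset.univ.filter fun u => P.Own v u)

open Classical in
/-- The balls. -/
noncomputable def Ba {V : Type} [Fintype V] (P : Sy V) : ℕ → V → Finset V
  | 0, v => {v}
  | t + 1, v => (St P v).biUnion (Ba P t)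

section
variable {V : Type} [Fintype V] (P : Sy V)

theorem self_mem_St (v : V) : v ∈ St P v := by
  classical
  unfold St
  exact Finset.mem_insert_self _ _

theorem mem_St_of {u v : V} (h : P.Own v u) : u ∈ St P v := by
  classical
  unfold St
  simp only [Finset.mem_insert, Finset.mem_filter, Finset.mem_univ, true_and]
  exact Or.inr h

theorem mem_St {u v : V} : u ∈ St P v ↔ u = v ∨ P.Own v u := by
  classical
  unfold St
  simp only [Finset.mem_insert, Finset.mem_filter, Finset.mem_univ, true_and]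

theorem St_symm {u v : V} (h : u ∈ St P v) : v ∈ St P u := by
  rw [mem_St] at h ⊢
  rcases h with rfl | h1
  · exact Or.inl rfl
  · exact Or.inr (P.own_symm h1)

theorem card_St_le (v : V) : (St P v).card ≤ 3 * P.D + 1 := by
  classical
  unfold St
  refine (Finset.card_insert_le _ _).trans (Nat.add_le_add_right ?_ 1)
  have h1 := P.dg_le v
  unfold Sy.dg at h1
  rw [Nat.card_eq_fintype_card, Fintype.card_subtype] at h1
  omega

theorem card_Ba_le (t : ℕ) (v : V) : (Ba P t v).card ≤ (3 * P.D + 1) ^ t := by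
  classical
  induction t generalizing v with
  | zero => simp [Ba]
  | succ t ih =>
    have h1 : Ba P (t + 1) v = (St P v).biUnion (Ba P t) := rfl
    rw [h1, pow_succ, mul_comm]
    exact (Finset.card_biUnion_le_card_mul _ _ _ fun w _ => ih w).trans
      (Nat.mul_le_mul_right _ (card_St_le P v))

theorem mem_Ba_succ {t : ℕ} {v x : V} : x ∈ Ba P (t + 1) v ↔ ∃ w ∈ St P v, x ∈ Ba P t w := by
  classical
  have h1 : Ba P (t + 1) v = (St P v).biUnion (Ba P t) := rfl
  rw [h1, Finset.mem_biUnion]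

theorem mem_Ba_zero {v x : V} : x ∈ Ba P 0 v ↔ x = v := by
  classical
  have h1 : Ba P 0 v = {v} := rfl
  rw [h1, Finset.mem_singleton]

theorem self_mem_Ba (t : ℕ) (v : V) : v ∈ Ba P t v := by
  induction t with
  | zero => exact (mem_Ba_zero P).2 rfl
  | succ t ih => exact (mem_Ba_succ P).2 ⟨v, self_mem_St P v, ih⟩

theorem Ba_comp {s t : ℕ} {v x y : V} (h1 : x ∈ Ba P s v) (h2 : y ∈ Ba P t x) :
    y ∈ Ba P (s + t) v := by
  induction s generalizing v with
  | zero =>
    rw [(mem_Ba_zero P).1 h1] at h2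
    rwa [zero_add]
  | succ s ih =>
    obtain ⟨w, hw, hx⟩ := (mem_Ba_succ P).1 h1
    have h3 : s + 1 + t = s + t + 1 := by omega
    rw [h3]
    exact (mem_Ba_succ P).2 ⟨w, hw, ih hx⟩

theorem Ba_symm {t : ℕ} {v x : V} (h : x ∈ Ba P t v) : v ∈ Ba P t x := by
  induction t generalizing v with
  | zero =>
    rw [(mem_Ba_zero P).1 h]
    exact self_mem_Ba P 0 v
  | succ t ih =>
    obtain ⟨w, hw, hx⟩ := (mem_Ba_succ P).1 h
    refine Ba_comp P (ih hx) ((mem_Ba_succ P).2 ⟨v, St_symm P hw, self_mem_Ba P 0 v⟩)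

theorem Ba_mono {s t : ℕ} (h : s ≤ t) {v x : V} (hx : x ∈ Ba P s v) : x ∈ Ba P t v := by
  obtain ⟨r, rfl⟩ := Nat.exists_eq_add_of_le h
  exact Ba_comp P hx (self_mem_Ba P r x)

theorem Ba_step {t : ℕ} {u v x : V} (h : u ∈ St P v) (hx : x ∈ Ba P t u) :
    x ∈ Ba P (t + 1) v := (mem_Ba_succ P).2 ⟨u, h, hx⟩

theorem mem_Ba_one {u v : V} (h : u ∈ St P v) : u ∈ Ba P 1 v :=
  Ba_step P h (self_mem_Ba P 0 u)

theorem part_Ba (t : ℕ) {v x : V} (h : x ∈ Ba P t v) : P.part x = P.part v := by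
  induction t generalizing v with
  | zero => rw [(mem_Ba_zero P).1 h]
  | succ t ih =>
    obtain ⟨w, hw, hx⟩ := (mem_Ba_succ P).1 h
    rw [ih hx]
    rcases (mem_St P).1 hw with rfl | h1
    · rfl
    · exact h1.2

variable (ω ω' : P.Om)

theorem c0_loc (v : V) (h : ∀ w ∈ Ba P 1 v, ω w = ω' w) : P.c0 ω v = P.c0 ω' v := by
  classical
  have hv := h v (self_mem_Ba P 1 v)
  have hy : ∀ y, P.Own v y → ω y = ω' y := fun y hy => h y (mem_Ba_one P (mem_St_of P hy))
  have hiff : (P.al (ω v) ∧ ∀ y, P.Own v y → ¬ (P.al (ω y) ∧ P.co (ω y) = P.co (ω v))) ↔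
      (P.al (ω' v) ∧ ∀ y, P.Own v y → ¬ (P.al (ω' y) ∧ P.co (ω' y) = P.co (ω' v))) := by
    rw [hv]
    constructor
    · rintro ⟨h1, h2⟩
      refine ⟨h1, fun y hy' => ?_⟩
      have := h2 y hy'
      rwa [hy y hy'] at this
    · rintro ⟨h1, h2⟩
      refine ⟨h1, fun y hy' => ?_⟩
      have := h2 y hy'
      rwa [← hy y hy'] at this
  unfold Sy.c0
  rw [hv] at hiff ⊢
  by_cases h3 : P.al (ω' v) ∧ ∀ y, P.Own v y → ¬ (P.al (ω' y) ∧ P.co (ω' y) = P.co (ω' v))
  · rw [if_pos (hiff.2 h3), if_pos h3]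
  · rw [if_neg (fun h4 => h3 (hiff.1 h4)), if_neg h3]

theorem used_loc (c c' : V → Option (Fin P.q)) (v : V) (h : ∀ u, P.Own v u → c u = c' u) :
    P.used c v = P.used c' v := by
  funext a
  apply propext
  constructor
  · rintro ⟨u, hu, h1⟩
    exact ⟨u, hu, by rw [← h u hu]; exact h1⟩
  · rintro ⟨u, hu, h1⟩
    exact ⟨u, hu, by rw [h u hu]; exact h1⟩

theorem stp_loc (i : ℕ) (c c' : V → Option (Fin P.q)) (v : V)
    (h1 : ∀ w ∈ Ba P 1 v, ω w = ω' w) (h2 : ∀ w ∈ Ba P 2 v, c w = c' w) :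
    P.stp ω i c v = P.stp ω' i c' v := by
  classical
  have hv := h1 v (self_mem_Ba P 1 v)
  have hcv := h2 v (self_mem_Ba P 2 v)
  have hus : ∀ y ∈ St P v, P.used c y = P.used c' y := by
    intro y hy
    apply used_loc
    intro u hu
    exact h2 u (Ba_step P hy (mem_Ba_one P (mem_St_of P hu)))
  have hpk : ∀ y ∈ St P v, P.pk ω c y = P.pk ω' c' y := by
    intro y hy
    unfold Sy.pk
    rw [h1 y (mem_Ba_one P hy), hus y hy]
  have hsv := self_mem_St P v
  have e1 := hpk v hsv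
  have e2 := hus v hsv
  have hiff : (P.rd (ω v) = i ∧ ¬ P.used c v (P.pk ω c v) ∧
      ∀ y, P.Own v y → P.idx y < P.idx v → c y = none → P.rd (ω y) = i →
        P.pk ω c y ≠ P.pk ω c v) ↔
      (P.rd (ω' v) = i ∧ ¬ P.used c' v (P.pk ω' c' v) ∧
      ∀ y, P.Own v y → P.idx y < P.idx v → c' y = none → P.rd (ω' y) = i →
        P.pk ω' c' y ≠ P.pk ω' c' v) := by
    rw [hv, e1, e2]
    have hall : (∀ y, P.Own v y → P.idx y < P.idx v → c y = none → P.rd (ω y) = i →
        P.pk ω c y ≠ P.pk ω' c' v) ↔ (∀ y, P.Own v y → P.idx y < P.idx v → c' y = none →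
        P.rd (ω' y) = i → P.pk ω' c' y ≠ P.pk ω' c' v) := by
      constructor
      · intro h y hy a1 a2 a3
        have m1 := mem_St_of P hy
        rw [← hpk y m1]
        apply h y hy a1
        · rw [h2 y (Ba_mono P (by norm_num) (mem_Ba_one P m1))]; exact a2
        · rw [h1 y (mem_Ba_one P m1)]; exact a3
      · intro h y hy a1 a2 a3
        have m1 := mem_St_of P hy
        rw [hpk y m1]
        apply h y hy a1
        · rw [← h2 y (Ba_mono P (by norm_num) (mem_Ba_one P m1))]; exact a2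
        · rw [← h1 y (mem_Ba_one P m1)]; exact a3
    rw [hall]
  unfold Sy.stp
  rw [hcv]
  by_cases h3 : c' v ≠ none
  · rw [if_pos h3, if_pos h3]
  · rw [if_neg h3, if_neg h3]
    by_cases h4 : (P.rd (ω' v) = i ∧ ¬ P.used c' v (P.pk ω' c' v) ∧
      ∀ y, P.Own v y → P.idx y < P.idx v → c' y = none → P.rd (ω' y) = i →
        P.pk ω' c' y ≠ P.pk ω' c' v)
    · rw [if_pos h4, if_pos (hiff.2 h4), e1]
    · rw [if_neg h4, if_neg (fun h5 => h4 (hiff.1 h5))]

theorem st_loc (i : ℕ) (v : V) (h : ∀ w ∈ Ba P (2 * i + 1) v, ω w = ω' w) :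
    P.st ω i v = P.st ω' i v := by
  induction i generalizing v with
  | zero => exact c0_loc P ω ω' v h
  | succ i ih =>
    show P.stp ω i (P.st ω i) v = P.stp ω' i (P.st ω' i) v
    apply stp_loc
    · intro w hw
      exact h w (Ba_mono P (by omega) hw)
    · intro u hu
      apply ih
      intro w hw
      have h1 := Ba_comp P hu hw
      have h2 : 2 + (2 * i + 1) = 2 * (i + 1) + 1 := by omega
      rw [h2] at h1
      exact h w h1

end

theorem goalLOC2 : GoalLOC2 := by
  classical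
  intro V _ P
  refine ⟨fun v => (Ba P (2 * P.Z + 3) v : Set V), ?_, ?_, ?_⟩
  · intro v x hx
    exact part_Ba P _ (Finset.mem_coe.1 hx)
  · intro v ω ω' h u hu
    unfold Sy.col
    apply st_loc
    intro w hw
    apply h w
    have h1 := Ba_step P (mem_St_of P hu) hw
    exact Finset.mem_coe.2 (Ba_mono P (by omega) h1)
  · intro v
    refine le_trans ?_ ((card_Ba_le P (2 * (2 * P.Z + 3)) v).trans
      (Nat.pow_le_pow_right (by omega) (by omega)))
    rw [Nat.card_eq_fintype_card, Fintype.card_subtype]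
    apply Finset.card_le_card
    intro t ht
    simp only [Finset.mem_filter, Finset.mem_univ, true_and] at ht
    rw [Set.not_disjoint_iff] at ht
    obtain ⟨x, hx1, hx2⟩ := ht
    have := Ba_comp P (Finset.mem_coe.1 hx1) (Ba_symm P (Finset.mem_coe.1 hx2))
    rwa [← two_mul] at this

end Pool.Agent.Helper85.Sey3
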